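import Pool.Agent.BLP.StmtsD

/-!
# Squad BLP, block D, row GEO: geodesics which are not Busemann geodesics are valleys
-/

namespace Pool.Agent.BLP.H53

open MeasureTheory ProbabilityTheory Filter Topology Finset
open scoped ENNReal

/-- a sequence which decreases at every step of an interval decreases on the interval -/
theorem anti_of_step {g : ℤ → ℝ} {m M : ℤ} (h : ∀ j, m ≤ j → j < M → g (j + 1) ≤ g j) :
    ∀ a c, m ≤ a → a ≤ c → c ≤ M → g c ≤ g a := by
  intro a c ha hac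
  induction c, hac using Int.leInduction with
  | base => intro _; exact le_refl _
  | succ c hc ih => intro hM; exact le_trans (h c (by omega) (by omega)) (ih (by omega))

/-- a geodesic is monotone -/
theorem geo_mono {b : Env} {m : ℤ} {τ : ℤ → ℝ} (hg : Geo b m τ) :
    ∀ a c, m - 1 ≤ a → a ≤ c → τ a ≤ τ c := by
  intro a c ha hac
  induction c, hac using Int.leInduction with
  | base => exact le_refl _
  | succ c hc ih =>
    have h1 := hg.1 (c + 1) (by omega)
    have h2 : c + 1 - 1 = c := by ring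
    rw [h2] at h1
    exact le_trans ih h1

/-- a geodesic from a level is a geodesic from every later level -/
theorem geo_later {b : Env} {m m' : ℤ} {τ : ℤ → ℝ} (hg : Geo b m τ) (h : m ≤ m') :
    Geo b m' τ :=
  ⟨fun r hr => hg.1 r (by omega), fun k n hk hn => hg.2 k n (by omega) hn⟩

theorem geo_core (hbel : BelStmt) (hstp : StpStmt) (b : Env) (β : ℚ → ℤ × ℝ → ℤ × ℝ → ℝ)
    (m k : ℤ) (p Q n : ℕ) (ρ d : ℚ) (τ : ℤ → ℝ) (r : ℤ) (s : ℝ) (hb : Cts b) (hg : Geo b m τ)
    (hd : 0 < d) (hn : m + Q ≤ n) (hk : k ≤ τ (m - 1))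
    (hp : τ (m + Q - 1) ≤ k + p) (hx : (k : ℝ) + p ≤ n * ρ)
    (hclo : Clo b β m k p Q ρ d n) (hr : m ≤ r) (hr' : r < m + Q) (hs : τ (r - 1) ≤ s)
    (hs' : s ≤ k + p) (hks : k ≤ s)
    (hbig : 3 * (d : ℝ) < b r s - b r (τ r) - β ρ (r + 1, τ r) (r + 1, s)) :
    Dx b m (τ (m - 1)) (m + Q) (τ (m + Q - 1)) n (τ n) + d <
      Dx b m (τ (m - 1)) (m + Q) (τ (m + Q - 1)) n (n * ρ) := by
  have hdR : (0 : ℝ) < (d : ℝ) := by exact_mod_cast hd
  have hmono := geo_mono hg
  have hlow : ∀ j, m - 1 ≤ j → (k : ℝ) ≤ τ j := fun j hj =>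
    le_trans hk (hmono (m - 1) j (le_refl _) hj)
  have hup : ∀ j, m - 1 ≤ j → j < m + Q → τ j ≤ k + p := fun j hj hj' =>
    le_trans (hmono j (m + Q - 1) hj (by omega)) hp
  set x : ℝ := (n : ℝ) * (ρ : ℝ) with hxdef
  -- the difference of the two profiles
  set g : ℤ → ℝ := fun j => L b j (τ (j - 1)) n x - L b j (τ (j - 1)) n (τ n) with hgdef
  have hstep : ∀ j, m ≤ j → j < m + Q → g (j + 1) ≤ g j := by
    intro j hj hj'
    have hjn : j < (n : ℤ) := by omega
    have h1 := (hstp b hb m τ hg j n hj hjn).2.1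
    have h2 : j + 1 - 1 = j := by ring
    have hmj : τ (j - 1) ≤ τ j := hg.1 j hj
    have hjx : τ j ≤ x := le_trans (hup j (by omega) hj') hx
    have h3 := (hbel b hb j n (τ (j - 1)) x hjn (le_trans hmj hjx)).1 (τ j) hmj hjx
    simp only [hgdef, h2]
    linarith
  have hjump : g (r + 1) + 2 * d < g r := by
    have hrn : r < (n : ℤ) := by omega
    have h1 := (hstp b hb m τ hg r n hr hrn).2.1
    have h2 : r + 1 - 1 = r := by ring
    have hmj : τ (r - 1) ≤ τ r := hg.1 r hr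
    have hsx : s ≤ x := le_trans hs' hx
    have h3 := (hbel b hb r n (τ (r - 1)) x hrn (le_trans hs hsx)).1 s hs hsx
    have h4 := (abs_le.1 (hclo (r + 1) (by omega) (by omega) (τ r) s (hlow r (by omega))
      (hup r (by omega) hr') hks hs')).2
    simp only [hgdef, h2]
    linarith
  have ha1 := anti_of_step hstep m r (le_refl _) hr (by omega)
  have ha2 := anti_of_step hstep (r + 1) (m + Q) (by omega) (by omega) (le_refl _)
  have h5 : Dx b m (τ (m - 1)) (m + Q) (τ (m + Q - 1)) n x -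
      Dx b m (τ (m - 1)) (m + Q) (τ (m + Q - 1)) n (τ n) = g m - g (m + Q) := by
    simp only [hgdef, Dx]
    ring
  linarith

/-- ROW GEO -/
theorem d_geo : GeoStmt := by
  intro _ hbel hstp b β m k p Q n ρ₁ ρ₃ d τ r r' s s' hb hg _ hd hn hk hp hx h1 h3 hc1 hc3
    hr hr2 hr' hr2' hs hs2 hs' hs2' hks hks' hbig hbig'
  refine ⟨geo_core hbel hstp b β m k p Q n ρ₁ d τ r s hb hg hd hn hk hp hx hc1 hr hr2 hs hs2 hks
    hbig, ?_⟩
  exact geo_core hbel hstp b β m k p Q n ρ₃ d τ r' s' hb hg hd hn hk hp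
    (le_trans hx (le_trans h1 h3)) hc3 hr' hr2' hs' hs2' hks' hbig'

end Pool.Agent.BLP.H53
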