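import Pool.Agent.BLP.StmtsD

/-!
# Squad BLP, block D, row GOO: no valleys implies that all geodesics are Busemann geodesics
-/

namespace Pool.Agent.BLP.H53

open MeasureTheory ProbabilityTheory Filter Topology Finset
open scoped ENNReal

theorem goo_mono {b : Env} {m : ℤ} {τ : ℤ → ℝ} (hg : Geo b m τ) :
    ∀ a c, m - 1 ≤ a → a ≤ c → τ a ≤ τ c := by
  intro a c ha hac
  induction c, hac using Int.leInduction with
  | base => exact le_refl _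
  | succ c hc ih =>
    have h1 := hg.1 (c + 1) (by omega)
    have h2 : c + 1 - 1 = c := by ring
    rw [h2] at h1
    exact le_trans ih h1

theorem goo_not {b : Env} {h : ℤ → ℝ → ℝ} {m : ℤ} {τ : ℤ → ℝ} (hg : Geo b m τ)
    (hn : ¬ BGeo b h m τ) :
    ∃ r s, m ≤ r ∧ τ (r - 1) ≤ s ∧ b r (τ r) - h (r + 1) (τ r) < b r s - h (r + 1) s := by
  by_contra hcon
  push Not at hcon
  exact hn fun r hr => ⟨hg.1 r hr, fun s hs => hcon r s hr hs⟩

theorem goo_left {f : ℚ → ℝ} {θ a c : ℝ}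
    (h : Tendsto f (comap (fun q : ℚ => (q : ℝ)) (𝓝[<] θ)) (𝓝 a)) (hc : c < a) :
    ∃ δ : ℝ, 0 < δ ∧ ∀ q : ℚ, θ - δ < q → (q : ℝ) < θ → c < f q := by
  have h1 : ∀ᶠ q in comap (fun q : ℚ => (q : ℝ)) (𝓝[<] θ), c < f q :=
    h.eventually (lt_mem_nhds hc)
  rw [Filter.eventually_comap] at h1
  obtain ⟨l, hl, hsub⟩ := mem_nhdsLT_iff_exists_Ioo_subset.1 h1
  refine ⟨θ - l, by have := Set.mem_Iio.1 hl; linarith, fun q hq hq' => ?_⟩
  have hq2 : l < (q : ℝ) := by linarith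
  exact hsub ⟨hq2, hq'⟩ q rfl

theorem goo_right {f : ℚ → ℝ} {θ a c : ℝ}
    (h : Tendsto f (comap (fun q : ℚ => (q : ℝ)) (𝓝[>] θ)) (𝓝 a)) (hc : c < a) :
    ∃ δ : ℝ, 0 < δ ∧ ∀ q : ℚ, θ < (q : ℝ) → (q : ℝ) < θ + δ → c < f q := by
  have h1 : ∀ᶠ q in comap (fun q : ℚ => (q : ℝ)) (𝓝[>] θ), c < f q :=
    h.eventually (lt_mem_nhds hc)
  rw [Filter.eventually_comap] at h1
  obtain ⟨u, hu, hsub⟩ := mem_nhdsGT_iff_exists_Ioo_subset.1 h1
  refine ⟨u - θ, by have := Set.mem_Ioi.1 hu; linarith, fun q hq hq' => ?_⟩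
  have hq2 : (q : ℝ) < u := by linarith
  exact hsub ⟨hq, hq2⟩ q rfl

/-- the limit at the two points of a strict non-Busemann step -/
theorem goo_lim {b : Env} {β : ℚ → ℤ × ℝ → ℤ × ℝ → ℝ} {F : Filter ℚ} {h : ℤ → ℝ → ℝ}
    (hl : ∀ m t, Tendsto (fun q : ℚ => β q (m, 0) (m, t)) F (𝓝 (h m t))) (r : ℤ) (s x : ℝ) :
    Tendsto (fun q : ℚ => b r s - b r x - (β q (r + 1, 0) (r + 1, s) - β q (r + 1, 0) (r + 1, x)))
      F (𝓝 (b r s - b r x - (h (r + 1) s - h (r + 1) x))) :=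
  tendsto_const_nhds.sub ((hl (r + 1) s).sub (hl (r + 1) x))

theorem goo_add {b : Env} {β : ℚ → ℤ × ℝ → ℤ × ℝ → ℝ} (hmon : Mon b β) {ρ : ℚ} (hρ : 0 < ρ)
    (j : ℤ) (s x : ℝ) : β ρ (j, x) (j, s) = β ρ (j, 0) (j, s) - β ρ (j, 0) (j, x) := by
  have h1 := hmon.1 ρ hρ (j, 0) (j, x) (j, s)
  linarith

/-- the conditions for large `n` -/
theorem goo_large {θ : ℝ} {τ : ℤ → ℝ} (hdir : Dir θ τ) (m₀ : ℤ) (k C : ℝ) (Q G i : ℕ)
    (hG : 1 ≤ G) (h1 : ((i : ℝ) + 1) / G < θ) (h3 : θ < ((i : ℝ) + 3) / G) :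
    ∀ᶠ n : ℕ in atTop, m₀ + Q ≤ (n : ℤ) ∧ C ≤ n * (((i : ℝ) + 1) / G) ∧
      (n : ℝ) * (((i : ℝ) + 1) / G) ≤ τ n ∧ τ n ≤ n * (((i : ℝ) + 3) / G) ∧
      (i : ℝ) / G * ((n : ℝ) - m₀) ≤ n * (((i : ℝ) + 1) / G) - k ∧
      n * (((i : ℝ) + 3) / G) - k ≤ ((i : ℝ) + 4) / G * ((n : ℝ) - m₀) := by
  have hGR : (0 : ℝ) < G := by exact_mod_cast hG
  have e1 : ∀ᶠ n : ℕ in atTop, m₀ + Q ≤ (n : ℤ) := by
    filter_upwards [eventually_ge_atTop (m₀ + Q).toNat] with n hn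
    omega
  have hρ : (0 : ℝ) < ((i : ℝ) + 1) / G := by positivity
  have t1 : Tendsto (fun n : ℕ => (n : ℝ)) atTop atTop := tendsto_natCast_atTop_atTop
  have e2 : ∀ᶠ n : ℕ in atTop, C ≤ n * (((i : ℝ) + 1) / G) :=
    (t1.atTop_mul_const hρ).eventually (eventually_ge_atTop C)
  have e3 : ∀ᶠ n : ℕ in atTop, ((i : ℝ) + 1) / G < τ n / n := hdir.eventually (lt_mem_nhds h1)
  have e4 : ∀ᶠ n : ℕ in atTop, τ n / n < ((i : ℝ) + 3) / G := hdir.eventually (gt_mem_nhds h3)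
  have e5 : ∀ᶠ n : ℕ in atTop, (k * G - i * m₀) ≤ (n : ℝ) := t1.eventually (eventually_ge_atTop _)
  have e6 : ∀ᶠ n : ℕ in atTop, ((i + 4) * m₀ - k * G) ≤ (n : ℝ) :=
    t1.eventually (eventually_ge_atTop _)
  filter_upwards [e1, e2, e3, e4, e5, e6, eventually_ge_atTop 1] with n a1 a2 a3 a4 a5 a6 a7
  have hn : (0 : ℝ) < n := by exact_mod_cast a7
  refine ⟨a1, a2, ?_, ?_, ?_, ?_⟩
  · have := (lt_div_iff₀ hn).1 a3
    linarith
  · have := (div_lt_iff₀ hn).1 a4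
    linarith
  · have h : (i : ℝ) / G * ((n : ℝ) - m₀) - (n * (((i : ℝ) + 1) / G) - k) =
        ((k * G - i * m₀) - n) / G := by
      field_simp
      ring
    have h' : ((k * G - i * m₀) - n) / G ≤ 0 := div_nonpos_of_nonpos_of_nonneg (by linarith) hGR.le
    linarith
  · have h : n * (((i : ℝ) + 3) / G) - k - ((i : ℝ) + 4) / G * ((n : ℝ) - m₀) =
        (((i + 4) * m₀ - k * G) - n) / G := by
      field_simp
      ring
    have h' : (((i + 4) * m₀ - k * G) - n) / G ≤ 0 :=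
      div_nonpos_of_nonpos_of_nonneg (by linarith) hGR.le
    linarith

/-- ROW GOO -/
theorem d_goo : GooStmt' := by
  intro hena hbel hstp hcov hgeo hvlt hgrd b β hb hmon hnov θ hθ hl hr hL hR m τ hg hdir
  by_contra hcon
  push Not at hcon
  obtain ⟨r, s, hmr, hs, hbad⟩ := goo_not hg hcon.1
  obtain ⟨r', s', hmr', hs', hbad'⟩ := goo_not hg hcon.2
  have hmono := goo_mono hg
  -- the depth
  obtain ⟨d, hd0, hd⟩ : ∃ d : ℚ, 0 < d ∧
      4 * (d : ℝ) < min (b r s - b r (τ r) - (hl (r + 1) s - hl (r + 1) (τ r)))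
        (b r' s' - b r' (τ r') - (hr (r' + 1) s' - hr (r' + 1) (τ r'))) := by
    have hpos : 0 < min (b r s - b r (τ r) - (hl (r + 1) s - hl (r + 1) (τ r)))
        (b r' s' - b r' (τ r') - (hr (r' + 1) s' - hr (r' + 1) (τ r'))) :=
      lt_min (by linarith) (by linarith)
    obtain ⟨d, hd1, hd2⟩ := exists_rat_btwn (div_pos hpos (by norm_num : (0 : ℝ) < 4))
    exact ⟨d, by exact_mod_cast hd1, by linarith⟩
  have hdR : (0 : ℝ) < d := by exact_mod_cast hd0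
  have hd1 := lt_of_lt_of_le hd (min_le_left _ _)
  have hd2 := lt_of_lt_of_le hd (min_le_right _ _)
  obtain ⟨δ₁, hδ₁, H1⟩ := goo_left (goo_lim (b := b) hL r s (τ r))
    (show 3 * (d : ℝ) < _ by linarith)
  obtain ⟨δ₂, hδ₂, H2⟩ := goo_right (goo_lim (b := b) hR r' s' (τ r'))
    (show 3 * (d : ℝ) < _ by linarith)
  obtain ⟨A, G₀, hA, hG₀, hgrid⟩ := hgrd θ (min δ₁ δ₂) hθ (lt_min hδ₁ hδ₂)
  -- the parameters
  set m₀ : ℤ := min r r' with hm₀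
  set Q : ℕ := (max r r' - min r r' + 1).toNat with hQdef
  have hQ : (Q : ℤ) = max r r' - min r r' + 1 := by
    rw [hQdef]
    exact Int.toNat_of_nonneg (by have := min_le_max (a := r) (b := r'); omega)
  have hQ1 : 1 ≤ Q := by
    have := min_le_max (a := r) (b := r')
    omega
  set k : ℤ := ⌊τ (m₀ - 1)⌋ with hk
  have hkle : (k : ℝ) ≤ τ (m₀ - 1) := Int.floor_le _
  obtain ⟨p, hp⟩ := exists_nat_ge (max (max (τ (m₀ + Q - 1)) (max s s') - k) 1)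
  have hp1 : 1 ≤ p := by
    have := le_trans (le_max_right _ _) hp
    exact_mod_cast this
  have hp2 : max (τ (m₀ + Q - 1)) (max s s') ≤ k + p := by
    have := le_trans (le_max_left _ _) hp
    linarith
  have hpτ : τ (m₀ + Q - 1) ≤ k + p := le_trans (le_max_left _ _) hp2
  have hps : s ≤ k + p := le_trans (le_trans (le_max_left _ _) (le_max_right _ _)) hp2
  have hps' : s' ≤ k + p := le_trans (le_trans (le_max_right _ _) (le_max_right _ _)) hp2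
  have hm₀m : m ≤ m₀ := le_min hmr hmr'
  have hg₀ : Geo b m₀ τ := ⟨fun r hr => hg.1 r (by omega), fun k n hk hn => hg.2 k n (by omega) hn⟩
  have hr0 : m₀ ≤ r := min_le_left _ _
  have hr0' : m₀ ≤ r' := min_le_right _ _
  have hr1 : r < m₀ + Q := by
    have := le_max_left r r'
    omega
  have hr1' : r' < m₀ + Q := by
    have := le_max_right r r'
    omega
  have hks : (k : ℝ) ≤ s := le_trans hkle (le_trans (hmono (m₀ - 1) (r - 1) (by omega) (by omega)) hs)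
  have hks' : (k : ℝ) ≤ s' :=
    le_trans hkle (le_trans (hmono (m₀ - 1) (r' - 1) (by omega) (by omega)) hs')
  obtain ⟨G, hG, hno⟩ := hnov m₀ k p Q A G₀ d hp1 hQ1 hA hd0
  have hG1 : 1 ≤ G := le_trans hG₀ hG
  have hGR : (0 : ℝ) < G := by exact_mod_cast hG1
  obtain ⟨i, hi1, hi2, g1, g2, g3, g4⟩ := hgrid G hG
  have hfreq := hno i hi1 hi2
  obtain ⟨n, ⟨hval, hc1, hc3⟩, a1, a2, a3, a4, a5, a6⟩ :=
    (hfreq.and_eventually (goo_large hdir m₀ k (k + p) Q G i hG1 g2 g3)).exists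
  have hc1R : (((((i : ℚ) + 1) / G : ℚ)) : ℝ) = ((i : ℝ) + 1) / G := by push_cast; ring
  have hc3R : (((((i : ℚ) + 3) / G : ℚ)) : ℝ) = ((i : ℝ) + 3) / G := by push_cast; ring
  have hGQ : (0 : ℚ) < G := by exact_mod_cast hG1
  have hρ1 : (0 : ℚ) < ((i : ℚ) + 1) / G := by positivity
  have hρ3 : (0 : ℚ) < ((i : ℚ) + 3) / G := by positivity
  have hbig : 3 * (d : ℝ) < b r s - b r (τ r) -
      β (((i : ℚ) + 1) / G) (r + 1, τ r) (r + 1, s) := by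
    rw [goo_add hmon hρ1 (r + 1) s (τ r)]
    apply H1
    · rw [hc1R]
      have := min_le_left δ₁ δ₂
      linarith
    · rw [hc1R]
      exact g2
  have hbig' : 3 * (d : ℝ) < b r' s' - b r' (τ r') -
      β (((i : ℚ) + 3) / G) (r' + 1, τ r') (r' + 1, s') := by
    rw [goo_add hmon hρ3 (r' + 1) s' (τ r')]
    apply H2
    · rw [hc3R]
      exact g3
    · rw [hc3R]
      have := min_le_right δ₁ δ₂
      linarith
  obtain ⟨v1, v3⟩ := hgeo hena hbel hstp b β m₀ k p Q n (((i : ℚ) + 1) / G) (((i : ℚ) + 3) / G) d τ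
    r r' s s' hb hg₀ hQ1 hd0 a1 hkle hpτ (by rw [hc1R]; exact a2) (by rw [hc1R]; exact a3)
    (by rw [hc3R]; exact a4) hc1 hc3 hr0 hr1 hr0' hr1' hs hps hs' hps' hks hks' hbig hbig'
  rw [hc1R] at v1
  rw [hc3R] at v3
  have ht0 : τ (m₀ - 1) ≤ k + p :=
    le_trans (hmono (m₀ - 1) (m₀ + Q - 1) (by omega) (by omega)) hpτ
  have ht1 : (k : ℝ) ≤ τ (m₀ + Q - 1) :=
    le_trans hkle (hmono (m₀ - 1) (m₀ + Q - 1) (by omega) (by omega))
  exact hval (hvlt hcov b m₀ k p d ((i : ℝ) / G) (((i : ℝ) + 4) / G) Q n (τ (m₀ - 1))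
    (τ (m₀ + Q - 1)) (n * (((i : ℝ) + 1) / G)) (τ n) (n * (((i : ℝ) + 3) / G)) (by omega)
    hkle ht0 ht1 hpτ a5 a3 a4 a6 v1 v3)

end Pool.Agent.BLP.H53
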