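import Pool.Agent.BLP.StmtsF

/-!
# Squad BLP, block F, row FCA: the increments are Cauchy in measure
-/

namespace Pool.Agent.BLP.H53

open MeasureTheory ProbabilityTheory Filter Topology Finset
open scoped ENNReal

/-- ROW FCA -/
theorem f_fca : FcaStmt := by
  intro hspk hqua hfsa hfga X _ μ B c hSp hmean hloc q m m' s s' hq hmm hss ε δ hε hδ
  have hprob := hSp.prob
  obtain ⟨q₁, q₂, hq₁, hq₁q, hqq₂, hev⟩ := hfga hqua X μ B c hSp hmean q m m' s s' (ε * δ / 4)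
    hq hmm hss (by positivity)
  obtain ⟨N₁, hN₁⟩ := hloc q₁ q q₂ hq₁ hq₁q hqq₂ m' s (δ / 8) (by positivity)
  obtain ⟨N₂, hN₂⟩ := hloc q₁ q q₂ hq₁ hq₁q hqq₂ m s' (δ / 8) (by positivity)
  have hq₁R : (0 : ℝ) < q₁ := by exact_mod_cast hq₁
  have e1 : ∀ᶠ n : ℕ in atTop, (s' : ℝ) ≤ n * (q₁ : ℝ) :=
    (tendsto_natCast_atTop_atTop.atTop_mul_const hq₁R).eventually (eventually_ge_atTop _)
  have e2 : ∀ᶠ n : ℕ in atTop, m' ≤ (n : ℤ) := by
    filter_upwards [eventually_ge_atTop m'.toNat] with n hn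
    omega
  obtain ⟨n₀, ⟨hpos, hint, hle⟩, hs0, hm0, hn1, hn2⟩ := (hev.and (e1.and (e2.and
    ((eventually_ge_atTop N₁).and (eventually_ge_atTop N₂))))).exists
  obtain ⟨n₁, hP⟩ := hN₁ n₀ hn1
  obtain ⟨n₂, hQ⟩ := hN₂ n₀ hn2
  set gap : X → ℝ := fun x => Dx (B x) m' s m s' n₀ (n₀ * q₁) - Dx (B x) m' s m s' n₀ (n₀ * q₂)
    with hgap
  set P : ℕ → Set X := fun n' => {x | ¬ ∃ v : ℝ, n₀ * q₁ ≤ v ∧ v ≤ n₀ * q₂ ∧ m' ≤ n₀ ∧ s ≤ v ∧
    v ≤ n' * q ∧ L (B x) m' s n' (n' * q) = L (B x) m' s n₀ v + L (B x) n₀ v n' (n' * q)} with hPdef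
  set Q : ℕ → Set X := fun n' => {x | ¬ ∃ v : ℝ, n₀ * q₁ ≤ v ∧ v ≤ n₀ * q₂ ∧ m ≤ n₀ ∧ s' ≤ v ∧
    v ≤ n' * q ∧ L (B x) m s' n' (n' * q) = L (B x) m s' n₀ v + L (B x) n₀ v n' (n' * q)} with hQdef
  have hssR : (s : ℝ) ≤ s' := by exact_mod_cast hss
  -- the sandwich
  have hsand : ∀ x (n' : ℕ), n₀ ≤ n' → x ∉ P n' → x ∉ Q n' →
      Dx (B x) m' s m s' n' (n' * q) ≤ Dx (B x) m' s m s' n₀ (n₀ * q₁) ∧
      Dx (B x) m' s m s' n₀ (n₀ * q₂) ≤ Dx (B x) m' s m s' n' (n' * q) := by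
    intro x n' hn' hxP hxQ
    have hn'Z : (n₀ : ℤ) ≤ n' := by exact_mod_cast hn'
    constructor
    · simp only [hPdef, Set.mem_ofPred_eq, not_not] at hxP
      obtain ⟨v, hv1, hv2, _, hv4, hv5, hv6⟩ := hxP
      exact (hfsa hspk hqua (B x) (hSp.cts x) m m' n₀ n' s s' v (n₀ * q₁) (n₀ * q₂) (n' * q) hmm hm0
        hn'Z hssR).1 hs0 hv1 hv5 hv6
    · simp only [hQdef, Set.mem_ofPred_eq, not_not] at hxQ
      obtain ⟨v, hv1, hv2, _, hv4, hv5, hv6⟩ := hxQ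
      exact (hfsa hspk hqua (B x) (hSp.cts x) m m' n₀ n' s s' v (n₀ * q₁) (n₀ * q₂) (n' * q) hmm hm0
        hn'Z hssR).2 hv4 hv2 hv5 hv6
  -- Markov
  have hmark : μ {x | ε < gap x} ≤ ENNReal.ofReal (δ / 4) := by
    have h1 := mul_meas_ge_le_integral_of_nonneg (μ := μ) (f := gap)
      (Filter.Eventually.of_forall hpos) hint ε
    have h2 : μ.real {x | ε ≤ gap x} ≤ δ / 4 := by
      have h3 : ε * μ.real {x | ε ≤ gap x} ≤ ε * (δ / 4) := by
        calc ε * μ.real {x | ε ≤ gap x} ≤ ∫ x, gap x ∂μ := h1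
          _ ≤ ε * δ / 4 := hle
          _ = ε * (δ / 4) := by ring
      exact le_of_mul_le_mul_left h3 hε
    calc μ {x | ε < gap x} ≤ μ {x | ε ≤ gap x} :=
          measure_mono fun x hx => le_of_lt (Set.mem_ofPred_eq ▸ hx)
      _ = ENNReal.ofReal (μ.real {x | ε ≤ gap x}) := by
          rw [ofReal_measureReal]
      _ ≤ ENNReal.ofReal (δ / 4) := ENNReal.ofReal_le_ofReal h2
  refine ⟨max (max n₁ n₂) n₀, fun n n' hn hn' => ?_⟩
  have hnn₁ : n₁ ≤ n := le_trans (le_trans (le_max_left _ _) (le_max_left _ _)) hn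
  have hnn₂ : n₂ ≤ n := le_trans (le_trans (le_max_right _ _) (le_max_left _ _)) hn
  have hnn₀ : n₀ ≤ n := le_trans (le_max_right _ _) hn
  have hnn₁' : n₁ ≤ n' := le_trans (le_trans (le_max_left _ _) (le_max_left _ _)) hn'
  have hnn₂' : n₂ ≤ n' := le_trans (le_trans (le_max_right _ _) (le_max_left _ _)) hn'
  have hnn₀' : n₀ ≤ n' := le_trans (le_max_right _ _) hn'
  have hsub : {x | ε < |Dx (B x) m' s m s' n (n * q) - Dx (B x) m' s m s' n' (n' * q)|} ⊆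
      (P n ∪ Q n) ∪ (P n' ∪ Q n') ∪ {x | ε < gap x} := by
    intro x hx
    by_contra hcon
    simp only [Set.mem_union, not_or] at hcon
    obtain ⟨⟨⟨c1, c2⟩, c3, c4⟩, c5⟩ := hcon
    obtain ⟨a1, a2⟩ := hsand x n hnn₀ c1 c2
    obtain ⟨a3, a4⟩ := hsand x n' hnn₀' c3 c4
    have hx' : ε < |Dx (B x) m' s m s' n (n * q) - Dx (B x) m' s m s' n' (n' * q)| := hx
    apply c5
    show ε < gap x
    refine lt_of_lt_of_le hx' ?_
    rw [abs_le]
    simp only [hgap]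
    constructor <;> linarith
  refine le_trans (measure_mono hsub) ?_
  refine le_trans (measure_union_le _ _) ?_
  have hPQ : ∀ k, n₁ ≤ k → n₂ ≤ k → μ (P k ∪ Q k) ≤ ENNReal.ofReal (δ / 4) := by
    intro k h1 h2
    refine le_trans (measure_union_le _ _) ?_
    refine le_trans (add_le_add (hP k h1) (hQ k h2)) ?_
    rw [← ENNReal.ofReal_add (by positivity) (by positivity)]
    exact ENNReal.ofReal_le_ofReal (by linarith)
  refine le_trans (add_le_add (le_trans (measure_union_le _ _)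
    (add_le_add (hPQ n hnn₁ hnn₂) (hPQ n' hnn₁' hnn₂'))) hmark) ?_
  rw [← ENNReal.ofReal_add (by positivity) (by positivity),
    ← ENNReal.ofReal_add (by positivity) (by positivity)]
  exact ENNReal.ofReal_le_ofReal (by linarith)

end Pool.Agent.BLP.H53
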